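import Pool.Agent.Helper98.RA.Count

/-!
# The effective Shafarevich conjecture: randomised algorithms and changes of mind

Numbers are used as codes of abelian schemes over `ℤ[1/N]`; an algorithm is a computable function
(Mathlib's `Computable`). Question Q1 asks for an algorithm which computes from `N` and `g` a bound for
the stable Faltings heights of all abelian schemes of relative dimension `g` over `ℤ[1/N]`.

**Theorem.** Q1 has the answer yes if and only if there are a `δ > 0` and a randomised algorithm which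
halts for most `(N, g)` with a probability of at least `δ` with a bound for these heights. The same for
a randomised algorithm which finds with probability at least `δ` the number of isomorphism classes, for
algorithms which list at most `k` numbers one of which is a bound, and for algorithms which change their
mind about a bound at most `k` times.
-/

set_option autoImplicit false

namespace Pool.Agent.Results.MP_07b2d0_nt.RandomisedAlgorithms

open Pool.Agent.Q49.EF Pool.Agent.Q328.AC Pool.Agent.Helper98.RA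

/-- Abelian schemes over `ℤ[1/N]`. -/
structure Setting where
  /-- `AV (N, g) x`: `x` is the least code of an abelian scheme of relative dimension `g` over `ℤ[1/N]`
  (isomorphic ones are identified); false for `N = 0` and for `g = 0` -/
  AV : ℕ × ℕ → ℕ → Prop
  /-- the stable Faltings height of the abelian scheme with code `x` -/
  h : ℕ → ℝ

/-- The known facts. -/
structure IsSetting (D : Setting) : Prop where
  pos : ∀ N g x, D.AV (N, g) x → 1 ≤ N ∧ 1 ≤ g
  /-- one can decide isomorphism, good reduction and being (a code of) an abelian variety of dimension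
  `g` over `ℚ` -/
  decidable : ComputablePred fun z : (ℕ × ℕ) × ℕ => D.AV z.1 z.2
  /-- Faltings, Zarhin -/
  finite : ∀ a, {x | D.AV a x}.Finite
  /-- upper bounds for the height of a given abelian scheme can be computed -/
  upper : ∃ u : ℕ → ℕ, Computable u ∧ ∀ a x, D.AV a x → D.h x ≤ u x
  /-- the abelian schemes of bounded height can be found effectively -/
  northcott : ∃ B : (ℕ × ℕ) × ℕ → ℕ, Computable B ∧ ∀ (a : ℕ × ℕ) (m x : ℕ), D.AV a x → D.h x ≤ m →
    x < B (a, m)
  /-- restriction to `ℤ[1/(N M)]` -/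
  restrict : ∀ N g M x, 0 < M → D.AV (N, g) x → ∃ y, D.AV (N * M, g) y ∧ D.h y = D.h x
  /-- powers -/
  power : ∀ N g m x, 0 < m → D.AV (N, g) x → ∃ y, D.AV (N, m * g) y ∧ D.h y = m * D.h x

/-- `c` is a bound for the stable Faltings heights of the abelian schemes with the parameters
`a = (N, g)` -/
def Bounds (D : Setting) (a : ℕ × ℕ) (c : ℕ) : Prop := ∀ x, D.AV a x → D.h x ≤ c

variable {D : Setting}

lemma le_of_mul_le {x c m : ℝ} (hm : 1 ≤ m) (hc : 0 ≤ c) (h : m * x ≤ c) : x ≤ c := by
  by_contra h1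
  push Not at h1
  have h2 : 0 < x := lt_of_le_of_lt hc h1
  nlinarith [mul_le_mul_of_nonneg_right hm h2.le]

/-- shifted parameters -/
def sh (a : ℕ × ℕ) : ℕ × ℕ := (a.1 + 1, a.2 + 1)

/-- multiples of shifted parameters -/
def mul (z : (ℕ × ℕ) × (ℕ × ℕ)) : ℕ × ℕ :=
  ((z.1.1 + 1) * (z.2.1 + 1) - 1, (z.1.2 + 1) * (z.2.2 + 1) - 1)

lemma sh_mul (a b : ℕ × ℕ) : sh (mul (a, b)) = ((a.1 + 1) * (b.1 + 1), (a.2 + 1) * (b.2 + 1)) := by
  unfold sh mul
  have h1 : 0 < (a.1 + 1) * (b.1 + 1) := Nat.mul_pos (Nat.succ_pos _) (Nat.succ_pos _)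
  have h2 : 0 < (a.2 + 1) * (b.2 + 1) := Nat.mul_pos (Nat.succ_pos _) (Nat.succ_pos _)
  ext <;> simp only <;> omega

lemma mul_comm' (a b : ℕ × ℕ) : mul (a, b) = mul (b, a) := by
  unfold mul
  simp only
  rw [mul_comm (a.1 + 1), mul_comm (a.2 + 1)]

lemma sh_computable : Computable sh :=
  Computable.pair (Computable.succ.comp Computable.fst) (Computable.succ.comp Computable.snd)

lemma mul_computable : Computable mul := by
  have h : Primrec fun z : ℕ × ℕ => (z.1 + 1) * (z.2 + 1) - 1 :=
    Primrec.pred.comp (Primrec.nat_mul.comp (Primrec.succ.comp Primrec.fst)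
      (Primrec.succ.comp Primrec.snd))
  exact (Primrec.pair
    (h.comp (Primrec.pair (Primrec.fst.comp Primrec.fst) (Primrec.fst.comp Primrec.snd)))
    (h.comp (Primrec.pair (Primrec.snd.comp Primrec.fst) (Primrec.snd.comp Primrec.snd)))).to_comp

lemma up (hD : IsSetting D) (a b : ℕ × ℕ) (c : ℕ) (h : Bounds D (sh (mul (a, b))) c) :
    Bounds D (sh a) c := by
  intro x hx
  obtain ⟨x', h3, h4⟩ := hD.restrict (a.1 + 1) (a.2 + 1) (b.1 + 1) x (Nat.succ_pos _) hx
  obtain ⟨y, h5, h6⟩ := hD.power ((a.1 + 1) * (b.1 + 1)) (a.2 + 1) (b.2 + 1) x' (Nat.succ_pos _) h3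
  rw [sh_mul] at h
  have h7 := h y (by rwa [mul_comm (a.2 + 1) (b.2 + 1)])
  rw [h6, h4] at h7
  exact le_of_mul_le (by exact_mod_cast Nat.succ_pos b.2) (Nat.cast_nonneg _) h7

attribute [local irreducible] Nat.unpair Nat.pair sh mul

/-- the multiples in a list -/
def lm (z : (ℕ × ℕ) × ℕ) : ℕ × ℕ := mul (z.1, z.2.unpair)

lemma directed (hD : IsSetting D) : Directed (fun a c => Bounds D (sh a) c) lm := by
  classical
  obtain ⟨p, hp, hp'⟩ := ComputablePred.computable_iff.mp hD.decidable
  have hpi : ∀ a x, p (a, x) = true ↔ D.AV a x := fun a x => (iff_of_eq (congrFun hp' (a, x))).symm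
  obtain ⟨u, hu, hu'⟩ := hD.upper
  obtain ⟨B, hB, hB'⟩ := hD.northcott
  have hBs : Computable fun z : (ℕ × ℕ) × ℕ => B (sh z.1, z.2) :=
    hB.comp (Computable.pair (sh_computable.comp Computable.fst) Computable.snd)
  refine ⟨⟨fun a c => ∀ x, D.AV (sh a) x → x < B (sh a, c),
    fun z => mx (fun w : ((ℕ × ℕ) × ℕ) × ℕ => u w.2) z (B (sh z.1, z.2)),
    fun w => p (sh w.1.1, w.2) && decide (B (sh w.1.1, w.1.2) ≤ w.2),
    mx_comp (hu.comp Computable.snd) hBs, ?_, ?_, ?_, ?_⟩, ?_, ?_, ?_⟩
  · exact Primrec.and.to_comp.comp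
      (hp.comp (Computable.pair (sh_computable.comp (Computable.fst.comp Computable.fst))
        Computable.snd))
      (le_computable (hBs.comp Computable.fst) Computable.snd)
  · intro a c h x hx
    exact hB' _ _ _ hx (h x hx)
  · intro a c h x hx
    refine (hu' _ x hx).trans ?_
    exact_mod_cast le_mx (fun w : ((ℕ × ℕ) × ℕ) × ℕ => u w.2) (a, c) (h x hx)
  · intro a c
    simp only [not_forall, not_lt, Bool.and_eq_true, decide_eq_true_eq, hpi]
    constructor
    · rintro ⟨x, h1, h2⟩
      exact ⟨x, h1, h2⟩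
    · rintro ⟨x, h1, h2⟩
      exact ⟨x, h1, h2⟩
  · exact mul_computable.comp (Computable.pair Computable.fst
      (Computable.unpair.comp Computable.snd))
  · intro a i c h
    exact up hD a _ c h
  · intro s
    refine ⟨fun a => Nat.pair a.1 a.2, (Primrec₂.natPair.comp Primrec.fst Primrec.snd).to_comp,
      fun a c h => ?_⟩
    unfold lm at h
    simp only [Nat.unpair_pair, Prod.mk.eta] at h
    rw [mul_comm'] at h
    exact up hD a s c h

/-- from shifted parameters to all parameters -/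
lemma unshift (hD : IsSetting D)
    (h : ∃ f : ℕ × ℕ → ℕ, Computable f ∧ ∀ a, Bounds D (sh a) (f a)) :
    ∃ c : ℕ × ℕ → ℕ, Computable c ∧ ∀ a, Bounds D a (c a) := by
  obtain ⟨f, hf, hf'⟩ := h
  refine ⟨fun a => f (a.1 - 1, a.2 - 1), hf.comp (Computable.pair
    (Primrec.pred.to_comp.comp Computable.fst) (Primrec.pred.to_comp.comp Computable.snd)), ?_⟩
  rintro ⟨N, g⟩ x hx
  obtain ⟨h1, h2⟩ := hD.pos N g x hx
  have h3 : sh (N - 1, g - 1) = (N, g) := by
    unfold sh
    ext <;> simp only <;> omega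
  have h4 := hf' (N - 1, g - 1) x
  rw [h3] at h4
  exact h4 hx

/-- lists of candidates for most parameters -/
theorem of_most (hD : IsSetting D) {k : ℕ} {E : (ℕ × ℕ) × ℕ → Option ℕ} (hE : Computable E)
    (h : Most fun a => AtMost k E a ∧ ∃ n c, E (a, n) = some c ∧ Bounds D a c) :
    ∃ c : ℕ × ℕ → ℕ, Computable c ∧ ∀ a, Bounds D a (c a) := by
  classical
  refine unshift hD ?_
  obtain ⟨X, hX, h1⟩ := half_of_most h
  have hE' : Computable fun z : (ℕ × ℕ) × ℕ => E (sh z.1, z.2) :=
    hE.comp (Computable.pair (sh_computable.comp Computable.fst) Computable.snd)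
  have d1 : Primrec fun z : ℕ × ℕ => z.1 / z.2 := Primrec.nat_div.comp Primrec.fst Primrec.snd
  have m1 : Primrec fun z : ℕ × ℕ => z.1 * z.2 := Primrec.nat_mul.comp Primrec.fst Primrec.snd
  have r1 : Primrec fun z : ℕ × ℕ => z.1 % z.2 := Primrec.nat_mod.comp Primrec.fst Primrec.snd
  have hXs : Computable fun a : ℕ × ℕ => X (sh a) := hX.comp sh_computable
  have e1 : Computable fun a : ℕ × ℕ => X (sh a) / (sh a).1 :=
    Computable.comp (f := fun z : ℕ × ℕ => z.1 / z.2) d1.to_comp
      (Computable.pair hXs (Computable.fst.comp sh_computable))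
  have e2 : Computable fun a : ℕ × ℕ => X (sh a) / (sh a).2 :=
    Computable.comp (f := fun z : ℕ × ℕ => z.1 / z.2) d1.to_comp
      (Computable.pair hXs (Computable.snd.comp sh_computable))
  have e3 : Computable fun z : (ℕ × ℕ) × ℕ => X (sh z.1) / (sh z.1).2 := e2.comp Computable.fst
  have e4 : Computable fun z : (ℕ × ℕ) × ℕ => z.2 / (X (sh z.1) / (sh z.1).2) :=
    Computable.comp (f := fun z : ℕ × ℕ => z.1 / z.2) d1.to_comp (Computable.pair Computable.snd e3)
  have e5 : Computable fun z : (ℕ × ℕ) × ℕ => z.2 % (X (sh z.1) / (sh z.1).2) :=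
    Computable.comp (f := fun z : ℕ × ℕ => z.1 % z.2) r1.to_comp (Computable.pair Computable.snd e3)
  have hM : Computable fun a : ℕ × ℕ => (X (sh a) / (sh a).1) * (X (sh a) / (sh a).2) :=
    Computable.comp (f := fun z : ℕ × ℕ => z.1 * z.2) m1.to_comp (Computable.pair e1 e2)
  have hb : Computable fun z : (ℕ × ℕ) × ℕ =>
      mul (z.1, (z.2 / (X (sh z.1) / (sh z.1).2), z.2 % (X (sh z.1) / (sh z.1).2))) :=
    mul_computable.comp (Computable.pair Computable.fst (Computable.pair e4 e5))
  obtain ⟨E', h2, h3⟩ := list_of_half (k := k) (V := fun a c => Bounds D (sh a) c)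
    (fun a c c' h2 h3 x hx => (h2 x hx).trans (by exact_mod_cast h3)) hE' hM hb
    (fun a i c h => up hD a _ c h) (fun a => by
      have h2 := h1 (sh a).1 (sh a).2 (by unfold sh; exact Nat.succ_pos _)
        (by unfold sh; exact Nat.succ_pos _)
      simp only [Prod.mk.eta] at h2
      refine lt_of_lt_of_le h2 (Nat.mul_le_mul_left 2 (Finset.card_le_card fun i hi => ?_))
      rw [Finset.mem_filter] at hi ⊢
      refine ⟨hi.1, ?_⟩
      have h4 : sh (mul (a, (i / (X (sh a) / (sh a).2), i % (X (sh a) / (sh a).2)))) =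
          ((sh a).1 * (i / (X (sh a) / (sh a).2) + 1), (sh a).2 * (i % (X (sh a) / (sh a).2) + 1)) := by
        rw [sh_mul]
        have h5 : (sh a).1 = a.1 + 1 := by unfold sh; rfl
        have h6 : (sh a).2 = a.2 + 1 := by unfold sh; rfl
        rw [← h5, ← h6]
      have h5 := hi.2
      rw [← h4] at h5
      obtain ⟨⟨S, hS, h6⟩, n, c, h7, h8⟩ := h5
      exact ⟨⟨S, hS, fun n c hc => h6 n c hc⟩, n, c, h7, h8⟩)
  exact bound_of_list (directed hD) (2 * k + 1) E' h2 h3

lemma most_mono {P Q : ℕ × ℕ → Prop} (h : ∀ a, P a → Q a) (hP : Most P) : Most Q := by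
  obtain ⟨ψ, h1, h2, h3⟩ := hP
  refine ⟨ψ, h1, h2, fun X => (Nat.mul_le_mul_left _ ?_).trans (h3 X)⟩
  unfold bad
  refine Set.ncard_le_ncard ?_ ?_
  · rintro a ⟨h4, h5, h6⟩
    exact ⟨h4, h5, fun h7 => h6 (h a h7)⟩
  · refine (Set.Finite.prod (Set.finite_Iic X) (Set.finite_Iic X)).subset ?_
    rintro ⟨x, y⟩ ⟨h4, h5, -⟩
    exact ⟨h4.2, h5.2⟩

/-- **Randomised algorithms are enough.** The following are equivalent.
1. Question Q1.
2. For some `k` an algorithm lists for most `(N, g)` at most `k` numbers, one of which is a bound.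
3. For some `k` an algorithm gives for most `(N, g)` a sequence of numbers which changes at most `k`
  times and ends with a bound.
4. For some `δ > 0` a randomised algorithm halts for most `(N, g)` with a probability of at least `δ`
  with a bound.
5. For some `δ > 0` a randomised algorithm halts for most `(N, g)` with a probability of at least `δ`
  with the number of isomorphism classes of abelian schemes of relative dimension `g` over `ℤ[1/N]`. -/
theorem result (hD : IsSetting D) : List.TFAE [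
    ∃ c : ℕ × ℕ → ℕ, Computable c ∧ ∀ a, Bounds D a (c a),
    ∃ (k : ℕ) (E : (ℕ × ℕ) × ℕ → Option ℕ), Computable E ∧ Most fun a =>
      {c | ∃ n, E (a, n) = some c}.encard ≤ k ∧ ∃ n c, E (a, n) = some c ∧ Bounds D a c,
    ∃ (k : ℕ) (G : (ℕ × ℕ) × ℕ → ℕ), Computable G ∧ Most fun a =>
      {n | G (a, n + 1) ≠ G (a, n)}.encard ≤ k ∧ ∃ m, ∀ n, m ≤ n → Bounds D a (G (a, n)),
    ∃ δ : ℝ, 0 < δ ∧ ∃ R : (ℕ × ℕ) × (ℕ × ℕ) → Option ℕ, IsRandomised R ∧ Most fun a =>
      δ ≤ prob R a (Bounds D a),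
    ∃ δ : ℝ, 0 < δ ∧ ∃ R : (ℕ × ℕ) × (ℕ × ℕ) → Option ℕ, IsRandomised R ∧ Most fun a =>
      δ ≤ prob R a fun m => {x | D.AV a x}.ncard = m] := by
  classical
  obtain ⟨p, hp, hp'⟩ := ComputablePred.computable_iff.mp hD.decidable
  have hpi : ∀ a x, p (a, x) = true ↔ D.AV a x := fun a x => (iff_of_eq (congrFun hp' (a, x))).symm
  have hps : ∀ a, {x | D.AV a x} = {x | p (a, x) = true} := fun a =>
    Set.ext fun x => (hpi a x).symm
  have hpf : ∀ a, {x | p (a, x) = true}.Finite := fun a => hps a ▸ hD.finite a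
  obtain ⟨u, hu, hu'⟩ := hD.upper
  tfae_have 1 → 3 := by
    rintro ⟨c, h1, h2⟩
    refine ⟨0, fun z => c z.1, h1.comp Computable.fst, most_of_forall fun a => ⟨?_, 0, fun _ _ => h2 a⟩⟩
    simp
  tfae_have 3 → 2 := by
    rintro ⟨k, G, h1, h2⟩
    refine ⟨k + 1, fun z => some (G z), Computable.option_some.comp h1, most_mono ?_ h2⟩
    rintro a ⟨h3, m, h4⟩
    exact ⟨encard_of_atMost (atMost_of_changes h3), m, _, rfl, h4 m le_rfl⟩
  tfae_have 2 → 1 := by
    rintro ⟨k, E, h1, h2⟩
    exact of_most hD h1 (most_mono (fun a h => ⟨atMost_of_encard h.1, h.2⟩) h2)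
  tfae_have 1 → 5 := by
    rintro ⟨c, h1, h2⟩
    obtain ⟨B, h3, h4⟩ := hD.northcott
    obtain ⟨n, h5, h6⟩ := card_of_bound hp
      (h3.comp (Computable.pair Computable.id h1) : Computable fun a => B (a, c a))
      fun a x hx => h4 a _ x ((hpi a x).mp hx) (h2 a x ((hpi a x).mp hx))
    refine ⟨1, one_pos, fun z => some (n z.1), const_random h5, most_of_forall fun a => ?_⟩
    refine const_prob ?_
    rw [hps]
    exact h6 a
  tfae_have 5 → 4 := by
    rintro ⟨δ, h0, R, h1, h2⟩
    obtain ⟨R', h3, h4⟩ := bound_of_count hp hpf (u := fun z : (ℕ × ℕ) × ℕ => u z.2)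
      (hu.comp Computable.snd) h1 h0 (V := fun a c => Bounds D a c) (fun a t ht x hx => by
        refine (hu' a x hx).trans ?_
        exact_mod_cast le_mx (fun z : (ℕ × ℕ) × ℕ => u z.2) a (ht x ((hpi a x).mpr hx)))
    refine ⟨δ / 2, half_pos h0, R', h3, most_mono (fun a h => ?_) h2⟩
    simp only [hps] at h
    exact h4 a h
  tfae_have 4 → 2 := by
    rintro ⟨δ, h0, R, h1, h2⟩
    obtain ⟨q, hq⟩ := exists_nat_gt (2 / δ)
    obtain ⟨E, h3, h4, h5⟩ := list_of_random h1 (V := fun a c => Bounds D a c)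
      (fun a c c' h2 h3 x hx => (h2 x hx).trans (by exact_mod_cast h3)) q
    refine ⟨q + 1, E, h3, most_mono (fun a h => ⟨encard_of_atMost (h4 a), ?_⟩) h2⟩
    refine h5 a (of_prob ?_ h)
    rw [div_lt_iff₀ h0] at hq
    exact hq
  tfae_finish

end Pool.Agent.Results.MP_07b2d0_nt.RandomisedAlgorithms
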